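import Pool.Agent.Helper81.NM.Pair

/-!
Pairs, with arcs which are arbitrary functions of the first element.
-/

set_option autoImplicit false

open Finset Real

namespace Pool.Agent.Helper81.NM

open Pool.Agent.Helper25.RC (repF below below_subset_range mem_below)

theorem hits_congr (k : ℕ) (y u l t : ℕ → ℝ) (h : ∀ i < k, t i = l i) :
    hits k y u t = hits k y u l := by
  unfold hits
  congr 1
  refine Finset.filter_congr fun i hi => ?_
  rw [mem_range] at hi
  rw [h i hi]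

/-- the pairs of elements of `A` below `x` for which the number of `i < k` with `b / M i` in the arc
`[u a i, u a i + l a i)` modulo one, an arbitrary function of `a`, differs by at least `η k` from the
expected number -/
def Dev (A : Set ℕ) (x k : ℕ) (M : ℕ → ℝ) (u l : ℕ → ℕ → ℝ) (η : ℝ) : Set (ℕ × ℕ) :=
  {p | p.1 ∈ A ∧ p.2 ∈ A ∧ p.1 < x ∧ p.2 < x ∧
    η * k ≤ |(Set.ncard {i | i < k ∧ Int.fract ((p.2 : ℝ) / M i - u p.1 i) < l p.1 i} : ℝ)
      - ∑ i ∈ range k, l p.1 i|}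

/-- ARCS WHICH ARE ARBITRARY FUNCTIONS OF THE FIRST ELEMENT. -/
theorem arcIneq {lam η : ℝ} (hlam : 1 < lam) (hη : 0 < η) : ∃ c > 0, ∃ C > 0,
    ∀ (A : Set ℕ) (x k : ℕ) (M : ℕ → ℝ) (u l : ℕ → ℕ → ℝ),
    (∀ i < k, 1 ≤ M i ∧ M i ≤ x) → (∀ i, i + 1 < k → lam * M i ≤ M (i + 1)) →
    (∀ a, ∀ i < k, 0 ≤ l a i ∧ l a i ≤ 1) →
    ((Dev A x k M u l η).ncard : ℝ) ^ 2 * Real.exp (c * k)
      ≤ C * x * ∑ n ∈ range (2 * x), (Pool.Agent.Helper16.NM.rep A n : ℝ) ^ 2 := by
  classical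
  obtain ⟨c, hc, C, hC, hnl⟩ := nl hlam hη
  refine ⟨c / 2, by positivity, √(2 * C), by positivity, fun A x k M u l hM hMl hl => ?_⟩
  set S := below A x with hS
  set E : ℝ := ∑ n ∈ range (2 * x), (repF S n : ℝ) ^ 2 with hE
  have hE0 : 0 ≤ E := by positivity
  set W : ℝ := C * x * E * Real.exp (-(c * k)) with hW
  have hW0 : 0 ≤ W := by positivity
  set Y : ℝ := √(√W) with hY
  have hY0 : 0 ≤ Y := Real.sqrt_nonneg _
  set t : ℕ → ℕ → ℝ := fun a i => if i < k then l a i else 0 with ht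
  have htk : ∀ a, ∀ i < k, t a i = l a i := fun a i hi => by simp [ht, hi]
  have ht01 : ∀ a i, 0 ≤ t a i ∧ t a i ≤ 1 := by
    intro a i
    simp only [ht]
    split_ifs with hi
    · exact hl a i hi
    · exact ⟨le_rfl, zero_le_one⟩
  have hsum : ∀ a, ∑ i ∈ range k, t a i = ∑ i ∈ range k, l a i := fun a =>
    Finset.sum_congr rfl fun i hi => htk a i (mem_range.1 hi)
  set B : ℕ → Finset ℕ := fun a => {b ∈ S | η * k ≤
    |(hits k (fun i => b / M i) (u a) (t a) : ℝ) - ∑ i ∈ range k, t a i|} with hB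
  have hBY : ∀ a, (#(B a) : ℝ) ≤ Y := by
    intro a
    refine le_root (Nat.cast_nonneg _) ?_
    have hBS : B a ⊆ S := filter_subset _ _
    have h1 := hnl x k M (u a) (t a) (B a) (hBS.trans (below_subset_range A x)) hM hMl (ht01 a)
      fun b hb => (mem_filter.1 hb).2
    have h2 := energy_mono (x := x) hBS
    have h3 : (#(B a) : ℝ) ^ 4 * Real.exp (c * k) ≤ C * x * E :=
      h1.trans (mul_le_mul_of_nonneg_left h2 (by positivity))
    have h4 : (#(B a) : ℝ) ^ 4 = (#(B a) : ℝ) ^ 4 * Real.exp (c * k) * Real.exp (-(c * k)) := by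
      rw [mul_assoc, ← Real.exp_add, add_neg_cancel, Real.exp_zero, mul_one]
    rw [h4]
    exact mul_le_mul_of_nonneg_right h3 (Real.exp_pos _).le
  have hcard : ((Dev A x k M u l η).ncard : ℝ) ≤ #S * Y := by
    have h1 : (Dev A x k M u l η).ncard ≤ #(S.biUnion fun a => {a} ×ˢ B a) := by
      rw [← Set.ncard_coe_finset]
      refine Set.ncard_le_ncard ?_ (Finset.finite_toSet _)
      rintro ⟨a, b⟩ ⟨ha, hb, hax, hbx, hD⟩
      simp only at ha hb hax hbx hD
      rw [Finset.mem_coe, mem_biUnion]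
      refine ⟨a, mem_below.2 ⟨hax, ha⟩, ?_⟩
      rw [mem_product]
      refine ⟨mem_singleton_self a, mem_filter.2 ⟨mem_below.2 ⟨hbx, hb⟩, ?_⟩⟩
      rw [hsum, hits_congr k _ (u a) (l a) (t a) (htk a)]
      have e1 : (Set.ncard {i | i < k ∧ Int.fract ((b : ℝ) / M i - u a i) < l a i})
          = hits k (fun i => (b : ℝ) / M i) (u a) (l a) := by
        unfold hits
        rw [← Set.ncard_coe_finset]
        congr 1
        ext i
        simp
      rw [e1] at hD
      exact hD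
    have h2 : #(S.biUnion fun a => {a} ×ˢ B a) ≤ ∑ a ∈ S, #(B a) := by
      refine card_biUnion_le.trans_eq (Finset.sum_congr rfl fun a _ => ?_)
      rw [card_product, card_singleton, one_mul]
    have h3 : ((Dev A x k M u l η).ncard : ℝ) ≤ ∑ a ∈ S, (#(B a) : ℝ) := by
      exact_mod_cast h1.trans h2
    have h4 := Finset.sum_le_card_nsmul S (fun a => (#(B a) : ℝ)) Y fun a _ => hBY a
    rw [nsmul_eq_mul] at h4
    exact h3.trans h4
  have htriv := trivial_energy (below_subset_range A x)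
  rw [← hS, ← hE] at htriv
  have h1 : (((Dev A x k M u l η).ncard : ℝ) ^ 2 * Real.exp (c / 2 * k)) ^ 2
      ≤ (√(2 * C) * x * E) ^ 2 := by
    have h2 : ((Dev A x k M u l η).ncard : ℝ) ^ 4 ≤ (#S * Y) ^ 4 :=
      pow_le_pow_left₀ (Nat.cast_nonneg _) hcard 4
    have h3 : Real.exp (c / 2 * k) ^ 2 = Real.exp (c * k) := by
      rw [← Real.exp_nat_mul]
      congr 1
      push_cast
      ring
    have h4 : √(2 * C) ^ 2 = 2 * C := Real.sq_sqrt (by positivity)
    have h5 : Y ^ 4 = W := root_pow hW0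
    have h6 : W * Real.exp (c * k) = C * x * E := by
      rw [hW, mul_assoc, ← Real.exp_add, neg_add_cancel, Real.exp_zero, mul_one]
    calc (((Dev A x k M u l η).ncard : ℝ) ^ 2 * Real.exp (c / 2 * k)) ^ 2
        = ((Dev A x k M u l η).ncard : ℝ) ^ 4 * Real.exp (c / 2 * k) ^ 2 := by ring
      _ ≤ (#S * Y) ^ 4 * Real.exp (c * k) := by
          rw [h3]
          exact mul_le_mul_of_nonneg_right h2 (Real.exp_pos _).le
      _ = (#S : ℝ) ^ 4 * (Y ^ 4 * Real.exp (c * k)) := by ring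
      _ = (#S : ℝ) ^ 4 * (C * x * E) := by rw [h5, h6]
      _ ≤ (2 * x * E) * (C * x * E) := mul_le_mul_of_nonneg_right htriv (by positivity)
      _ = (2 * C) * x ^ 2 * E ^ 2 := by ring
      _ = √(2 * C) ^ 2 * x ^ 2 * E ^ 2 := by rw [h4]
      _ = (√(2 * C) * x * E) ^ 2 := by ring
  have h2 := le_of_sq_le_sq h1 (by positivity)
  refine h2.trans (mul_le_mul_of_nonneg_left ?_ (by positivity))
  refine Finset.sum_le_sum fun n _ => ?_
  have h4 : repF S n ≤ Pool.Agent.Helper16.NM.rep A n :=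
    Pool.Agent.Helper16.NM.r_le_rep (B := S) (A := A) (fun a ha => (mem_below.1 ha).2) n
  have h5 : (repF S n : ℝ) ≤ Pool.Agent.Helper16.NM.rep A n := by exact_mod_cast h4
  exact pow_le_pow_left₀ (Nat.cast_nonneg _) h5 2

end Pool.Agent.Helper81.NM
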