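import Pool.Agent.Helper81.NM.Lac
import Pool.Agent.Helper16.NM.Riesz

/-!
The exponential inequality in the form used for lacunary frequencies.
-/

set_option autoImplicit false

open Finset Real

namespace Pool.Agent.Helper81.NM

open Pool.Agent.Helper25.RC (repF)
open Pool.Agent.Helper38.RC (expSum)
open Pool.Agent.Helper7.ET (e e_add e_zero norm_e expSum_eq)

theorem expSum_ee (B : Finset ℕ) (N : ℕ) (h : ℤ) :
    expSum B ((h : ℝ) / N) = ∑ a ∈ B, Pool.Agent.Helper16.NM.ee N (h * a) := by
  rw [expSum_eq]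
  refine Finset.sum_congr rfl fun a _ => ?_
  unfold e Pool.Agent.Helper16.NM.ee
  congr 1
  push_cast
  ring

theorem expE : ExpE := by
  intro x N B k h hxN hN0 hB hdis
  have hd : Pool.Agent.Helper16.NM.Dissoc N (fun i : Fin k => h i) := by
    intro c hc hdvd i
    have h1 := hdis (fun j => if hj : j < k then c ⟨j, hj⟩ else 0) (by
      intro j
      split_ifs with hj
      · rcases hc ⟨j, hj⟩ with h | h | h <;> rw [h] <;> decide
      · decide) (by
      rw [← Fin.sum_univ_eq_sum_range (fun j => (if hj : j < k then c ⟨j, hj⟩ else 0) * h j) k]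
      simpa using hdvd) i i.2
    simpa using h1
  have h1 := Pool.Agent.Helper16.NM.exp_growth (B := B) (N := N) (by
    intro a ha b hb
    have h2 := mem_range.1 (hB ha)
    have h3 := mem_range.1 (hB hb)
    omega) hd
  have h2 : ∑ i : Fin k, (‖∑ a ∈ B, Pool.Agent.Helper16.NM.ee N (h i * a)‖ / (B.card : ℝ)) ^ 4
      = ∑ i ∈ range k, (‖expSum B ((h i : ℝ) / N)‖ / #B) ^ 4 := by
    rw [← Fin.sum_univ_eq_sum_range (fun i => (‖expSum B ((h i : ℝ) / N)‖ / (#B : ℝ)) ^ 4) k]
    refine Finset.sum_congr rfl fun i _ => ?_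
    rw [expSum_ee]
  have h3 : ∑ n ∈ range N, (Pool.Agent.Helper16.NM.r B n : ℝ) ^ 2
      = ∑ n ∈ range (2 * x), (repF B n : ℝ) ^ 2 := by
    symm
    refine Finset.sum_subset (range_subset_range.2 hxN) ?_ |>.trans ?_
    · intro n _ hn
      rw [mem_range, not_lt] at hn
      have : repF B n = 0 := by
        unfold repF
        rw [Finset.card_eq_zero, Finset.filter_eq_empty_iff]
        intro p hp hpn
        rw [mem_product] at hp
        have h2 := mem_range.1 (hB hp.1)
        have h3 := mem_range.1 (hB hp.2)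
        omega
      rw [this]
      norm_num
    · rfl
  rw [h2, h3] at h1
  exact h1

end Pool.Agent.Helper81.NM
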