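import Pool.Agent.Helper7.ET.Arc

/-!
From dissociated frequencies modulo an integer to lacunary real frequencies.
-/

set_option autoImplicit false

open Finset Real

namespace Pool.Agent.Helper81.NM

open Pool.Agent.Helper25.RC (repF)
open Pool.Agent.Helper38.RC (expSum)
open Pool.Agent.Helper7.ET (e e_add e_zero norm_e expSum_eq)

/-- the exponential inequality for dissociated frequencies -/
def ExpE : Prop := ∀ (x N : ℕ) (B : Finset ℕ) (k : ℕ) (h : ℕ → ℤ), 2 * x ≤ N → 0 < N → B ⊆ range x →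
  (∀ c : ℕ → ℤ, (∀ i, |c i| ≤ 1) → (N : ℤ) ∣ ∑ i ∈ range k, c i * h i → ∀ i < k, c i = 0) →
  (#B : ℝ) ^ 4 * Real.exp (1 / 4 * ∑ i ∈ range k, (‖expSum B ((h i : ℝ) / N)‖ / #B) ^ 4) ≤
    N * ∑ n ∈ range (2 * x), (repF B n : ℝ) ^ 2

theorem sum_lac : ∀ (k : ℕ) (h : ℕ → ℤ), (∀ i ≤ k, 0 ≤ h i) → (∀ i < k, 3 * h (i + 1) ≤ h i) →
    2 * ∑ i ∈ range (k + 1), h i ≤ 3 * h 0 := by
  intro k
  induction k with
  | zero =>
    intro h h0 _
    have := h0 0 le_rfl
    simp
    omega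
  | succ k ih =>
    intro h h0 h3
    rw [Finset.sum_range_succ']
    have h1 := ih (fun i => h (i + 1)) (fun i hi => h0 (i + 1) (by omega))
      (fun i hi => h3 (i + 1) (by omega))
    have h2 := h3 0 (by omega)
    simp only [zero_add] at h1 h2
    omega

theorem dis_lac : ∀ (k : ℕ) (h c : ℕ → ℤ), (∀ i < k, 0 < h i) →
    (∀ i, i + 1 < k → 3 * h (i + 1) ≤ h i) → (∀ i, |c i| ≤ 1) →
    ∑ i ∈ range k, c i * h i = 0 → ∀ i < k, c i = 0 := by
  intro k
  induction k with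
  | zero => intro h c _ _ _ _ i hi; omega
  | succ k ih =>
    intro h c h0 h3 hc hs
    rw [Finset.sum_range_succ'] at hs
    have hc0 : c 0 = 0 := by
      by_contra hne
      have h1 : 1 ≤ |c 0| := Int.one_le_abs hne
      have h2 : h 0 ≤ |c 0 * h 0| := by
        rw [abs_mul, abs_of_pos (h0 0 (by omega))]
        have := h0 0 (by omega)
        nlinarith
      have h4 : |c 0 * h 0| ≤ ∑ i ∈ range k, h (i + 1) := by
        have e1 : c 0 * h 0 = -∑ i ∈ range k, c (i + 1) * h (i + 1) := by omega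
        rw [e1, abs_neg]
        refine (Finset.abs_sum_le_sum_abs _ _).trans (Finset.sum_le_sum fun i hi => ?_)
        rw [mem_range] at hi
        have h5 := h0 (i + 1) (by omega)
        rw [abs_mul, abs_of_pos h5]
        have := hc (i + 1)
        nlinarith
      rcases Nat.eq_zero_or_pos k with rfl | hk
      · have := h0 0 (by omega)
        rw [Finset.range_zero, Finset.sum_empty] at h4
        omega
      · obtain ⟨j, rfl⟩ := Nat.exists_eq_succ_of_ne_zero hk.ne'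
        have h5 := sum_lac j (fun i => h (i + 1)) (fun i hi => (h0 (i + 1) (by omega)).le)
          (fun i hi => h3 (i + 1) (by omega))
        have h6 := h3 0 (by omega)
        have h7 := h0 0 (by omega)
        simp only [zero_add, Nat.succ_eq_add_one] at h4 h5 h6
        omega
    have h1 := ih (fun i => h (i + 1)) (fun i => c (i + 1)) (fun i hi => h0 (i + 1) (by omega))
      (fun i hi => h3 (i + 1) (by omega)) (fun i => hc (i + 1)) (by
        rw [hc0] at hs
        simpa using hs)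
    intro i hi
    cases i with
    | zero => exact hc0
    | succ i => exact h1 i (by omega)

theorem norm_e_sub (u v : ℝ) : ‖e u - e v‖ ≤ 2 * π * |u - v| := by
  unfold e
  have h1 := Real.norm_exp_I_mul_ofReal_sub_one_le (x := 2 * π * (u - v))
  have h2 : Complex.exp (((2 * π * u : ℝ) : ℂ) * Complex.I)
      - Complex.exp (((2 * π * v : ℝ) : ℂ) * Complex.I)
      = Complex.exp (((2 * π * v : ℝ) : ℂ) * Complex.I)
        * (Complex.exp (Complex.I * ((2 * π * (u - v) : ℝ) : ℂ)) - 1) := by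
    rw [mul_sub, ← Complex.exp_add, mul_one]
    congr 2
    push_cast
    ring
  rw [h2, norm_mul, Complex.norm_exp_ofReal_mul_I, one_mul]
  refine h1.trans ?_
  rw [Real.norm_eq_abs, abs_mul, abs_of_pos (by positivity)]

theorem expSum_lip {x : ℕ} {B : Finset ℕ} (hB : B ⊆ range x) (u v : ℝ) :
    ‖expSum B u - expSum B v‖ ≤ #B * (2 * π * (x * |u - v|)) := by
  rw [expSum_eq, expSum_eq, ← Finset.sum_sub_distrib]
  refine (norm_sum_le _ _).trans ?_
  rw [← nsmul_eq_mul]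
  refine Finset.sum_le_card_nsmul _ _ _ fun a ha => ?_
  refine (norm_e_sub _ _).trans ?_
  have h1 : (a : ℝ) * u - a * v = a * (u - v) := by ring
  rw [h1, abs_mul, abs_of_nonneg (Nat.cast_nonneg a)]
  have h2 : (a : ℝ) ≤ x := by
    have := mem_range.1 (hB ha)
    exact_mod_cast this.le
  have h3 : (a : ℝ) * |u - v| ≤ x * |u - v| := mul_le_mul_of_nonneg_right h2 (abs_nonneg _)
  have h4 : 0 < 2 * π := by positivity
  exact mul_le_mul_of_nonneg_left h3 h4.le

theorem four_tangent (a d : ℝ) : d ^ 4 + 4 * d ^ 3 * (a - d) ≤ a ^ 4 := by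
  have h : a ^ 4 - (d ^ 4 + 4 * d ^ 3 * (a - d)) = (a - d) ^ 2 * ((a + d) ^ 2 + 2 * d ^ 2) := by ring
  have h2 : 0 ≤ (a - d) ^ 2 * ((a + d) ^ 2 + 2 * d ^ 2) := by positivity
  linarith

/-- LACUNARY REAL FREQUENCIES. -/
theorem lac_energy (hE : ExpE) {ε : ℝ} (hε : 0 < ε) : ∃ C : ℝ, 0 < C ∧ ∀ (x : ℕ) (B : Finset ℕ)
    (k : ℕ) (θ : ℕ → ℝ), B ⊆ range x → (∀ i < k, 1 / x ≤ θ i ∧ θ i ≤ 1 / 4) →
    (∀ i, i + 1 < k → 4 * θ (i + 1) ≤ θ i) → ε * k * #B ≤ ∑ i ∈ range k, ‖expSum B (θ i)‖ →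
    (#B : ℝ) ^ 4 * Real.exp (ε ^ 4 / 64 * k) ≤ C * x * ∑ n ∈ range (2 * x), (repF B n : ℝ) ^ 2 := by
  obtain ⟨m0, hm0⟩ := exists_nat_ge (8 / ε)
  set m : ℕ := m0 + 4 with hm
  have hm4 : 4 ≤ m := by omega
  have hmε : 8 / ε ≤ (m : ℝ) := by rw [hm]; push_cast; linarith
  have hmR : (4 : ℝ) ≤ m := by exact_mod_cast hm4
  refine ⟨m, by linarith, fun x B k θ hB hθ hlac hsum => ?_⟩
  rcases B.eq_empty_or_nonempty with rfl | hne
  · have : (0 : ℝ) ≤ m * x * ∑ n ∈ range (2 * x), (repF (∅ : Finset ℕ) n : ℝ) ^ 2 := by positivity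
    rw [Finset.card_empty, Nat.cast_zero]
    linarith
  have hT : (0 : ℝ) < #B := by exact_mod_cast hne.card_pos
  have hx : 0 < x := by
    obtain ⟨a, ha⟩ := hne
    have := mem_range.1 (hB ha)
    omega
  have hxR : (0 : ℝ) < x := by exact_mod_cast hx
  set N : ℕ := m * x with hN
  have hN2 : 2 * x ≤ N := by rw [hN]; nlinarith
  have hN0 : 0 < N := by omega
  have hNR : (0 : ℝ) < N := by exact_mod_cast hN0
  have hNR' : (N : ℝ) = m * x := by rw [hN]; push_cast; ring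
  set h : ℕ → ℤ := fun i => round ((N : ℝ) * θ i) with hh
  have hr : ∀ i, |(N : ℝ) * θ i - h i| ≤ 1 / 2 := fun i => abs_sub_round _
  have hbig : ∀ i < k, (4 : ℤ) ≤ h i := by
    intro i hi
    have h1 := (hθ i hi).1
    have h2 : (m : ℝ) ≤ N * θ i := by
      rw [hNR']
      have : (m : ℝ) * x * (1 / x) ≤ m * x * θ i := mul_le_mul_of_nonneg_left h1 (by positivity)
      have h3 : (m : ℝ) * x * (1 / x) = m := by field_simp
      linarith
    have h3 := abs_le.1 (hr i)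
    have h4 : (3 : ℝ) < h i := by linarith [h3.2]
    have h5 : (3 : ℤ) < h i := by exact_mod_cast h4
    omega
  have h3l : ∀ i, i + 1 < k → 3 * h (i + 1) ≤ h i := by
    intro i hi
    have h1 := hlac i hi
    have h2 := abs_le.1 (hr i)
    have h4 := abs_le.1 (hr (i + 1))
    have h5 := hbig (i + 1) hi
    have h5' : (4 : ℝ) ≤ h (i + 1) := by exact_mod_cast h5
    have h6 : (N : ℝ) * (4 * θ (i + 1)) ≤ N * θ i := mul_le_mul_of_nonneg_left h1 hNR.le
    have h7 : (3 : ℝ) * h (i + 1) ≤ h i := by nlinarith [h2.1, h2.2, h4.1, h4.2]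
    exact_mod_cast h7
  have hdis : ∀ c : ℕ → ℤ, (∀ i, |c i| ≤ 1) → (N : ℤ) ∣ ∑ i ∈ range k, c i * h i →
      ∀ i < k, c i = 0 := by
    intro c hc hd
    rcases Nat.eq_zero_or_pos k with rfl | hk
    · intro i hi; omega
    refine dis_lac k h c (fun i hi => by have := hbig i hi; omega) h3l hc ?_
    refine Int.eq_zero_of_abs_lt_dvd hd ?_
    have h1 : |∑ i ∈ range k, c i * h i| ≤ ∑ i ∈ range k, h i := by
      refine (Finset.abs_sum_le_sum_abs _ _).trans (Finset.sum_le_sum fun i hi => ?_)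
      rw [mem_range] at hi
      have h5 := hbig i hi
      rw [abs_mul, abs_of_pos (show 0 < h i by omega)]
      have := hc i
      nlinarith
    obtain ⟨j, rfl⟩ := Nat.exists_eq_succ_of_ne_zero hk.ne'
    have h2 := sum_lac j h (fun i hi => by have := hbig i (by omega); omega)
      (fun i hi => h3l i (by omega))
    have h3 : (h 0 : ℝ) ≤ N / 4 + 1 / 2 := by
      have h4 := (hθ 0 (by omega)).2
      have h5 := abs_le.1 (hr 0)
      have h6 : (N : ℝ) * θ 0 ≤ N * (1 / 4) := mul_le_mul_of_nonneg_left h4 hNR.le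
      linarith [h5.1]
    have h4 : (4 : ℝ) ≤ N := by
      rw [hNR']
      have : (1 : ℝ) ≤ x := by exact_mod_cast hx
      nlinarith
    have h5 : 3 * (h 0 : ℝ) < 2 * N := by linarith
    have h6 : 3 * h 0 < 2 * (N : ℤ) := by exact_mod_cast h5
    simp only [Nat.succ_eq_add_one] at h1 h2 ⊢
    omega
  have hmain := hE x N B k h hN2 hN0 hB hdis
  have hf : ∀ i, ‖expSum B (θ i)‖ / #B - ε / 2 ≤ ‖expSum B ((h i : ℝ) / N)‖ / #B := by
    intro i
    have h1 := expSum_lip hB (θ i) ((h i : ℝ) / N)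
    have h2 : |θ i - (h i : ℝ) / N| ≤ 1 / (2 * N) := by
      have h3 : θ i - (h i : ℝ) / N = (N * θ i - h i) / N := by field_simp
      rw [h3, abs_div, abs_of_pos hNR, div_le_iff₀ hNR]
      have h4 := hr i
      have h5 : 1 / (2 * (N : ℝ)) * N = 1 / 2 := by field_simp
      linarith
    have h3 : (x : ℝ) * |θ i - (h i : ℝ) / N| ≤ 1 / (2 * m) := by
      have h4 : (x : ℝ) * |θ i - (h i : ℝ) / N| ≤ x * (1 / (2 * N)) :=
        mul_le_mul_of_nonneg_left h2 hxR.le
      have h5 : (x : ℝ) * (1 / (2 * N)) = 1 / (2 * m) := by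
        rw [hNR']
        have : (m : ℝ) ≠ 0 := by positivity
        field_simp
      linarith
    have h4 : 2 * π * ((x : ℝ) * |θ i - (h i : ℝ) / N|) ≤ ε / 2 := by
      have h5 : 2 * π * ((x : ℝ) * |θ i - (h i : ℝ) / N|) ≤ 2 * π * (1 / (2 * m)) :=
        mul_le_mul_of_nonneg_left h3 (by positivity)
      have h6 : 2 * π * (1 / (2 * (m : ℝ))) = π / m := by field_simp
      have h7 : π / m ≤ ε / 2 := by
        rw [div_le_iff₀ (by linarith)]
        have h8 : 8 ≤ m * ε := by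
          rwa [div_le_iff₀ hε] at hmε
        have h9 := Real.pi_lt_four
        linarith
      linarith
    have h5 : ‖expSum B (θ i)‖ - #B * (ε / 2) ≤ ‖expSum B ((h i : ℝ) / N)‖ := by
      have h6 := norm_sub_norm_le (expSum B (θ i)) (expSum B ((h i : ℝ) / N))
      have h7 : #B * (2 * π * ((x : ℝ) * |θ i - (h i : ℝ) / N|)) ≤ #B * (ε / 2) :=
        mul_le_mul_of_nonneg_left h4 hT.le
      linarith
    rw [le_div_iff₀ hT, sub_mul, div_mul_cancel₀ _ hT.ne']
    linarith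
  have hsum2 : (ε / 2) * k ≤ ∑ i ∈ range k, ‖expSum B ((h i : ℝ) / N)‖ / #B := by
    have h1 : ∑ i ∈ range k, (‖expSum B (θ i)‖ / #B - ε / 2)
        ≤ ∑ i ∈ range k, ‖expSum B ((h i : ℝ) / N)‖ / #B := Finset.sum_le_sum fun i _ => hf i
    rw [Finset.sum_sub_distrib, ← Finset.sum_div, Finset.sum_const, card_range, nsmul_eq_mul] at h1
    have h2 : ε * k ≤ (∑ i ∈ range k, ‖expSum B (θ i)‖) / #B := by
      rw [le_div_iff₀ hT]; exact hsum
    linarith
  have hpow : ε ^ 4 / 16 * k ≤ ∑ i ∈ range k, (‖expSum B ((h i : ℝ) / N)‖ / #B) ^ 4 := by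
    have h1 : ∑ i ∈ range k, ((ε / 2) ^ 4 + 4 * (ε / 2) ^ 3
        * (‖expSum B ((h i : ℝ) / N)‖ / #B - ε / 2))
        ≤ ∑ i ∈ range k, (‖expSum B ((h i : ℝ) / N)‖ / #B) ^ 4 :=
      Finset.sum_le_sum fun i _ => four_tangent _ _
    rw [Finset.sum_add_distrib, ← Finset.mul_sum, Finset.sum_sub_distrib, Finset.sum_const,
      Finset.sum_const, card_range, nsmul_eq_mul, nsmul_eq_mul] at h1
    have h2 : 0 ≤ 4 * (ε / 2) ^ 3 * (∑ i ∈ range k, ‖expSum B ((h i : ℝ) / N)‖ / #B - k * (ε / 2)) :=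
      mul_nonneg (by positivity) (by linarith)
    have h3 : (k : ℝ) * (ε / 2) ^ 4 = ε ^ 4 / 16 * k := by ring
    linarith
  calc (#B : ℝ) ^ 4 * Real.exp (ε ^ 4 / 64 * k)
      ≤ (#B : ℝ) ^ 4 * Real.exp (1 / 4 * ∑ i ∈ range k, (‖expSum B ((h i : ℝ) / N)‖ / #B) ^ 4) := by
        refine mul_le_mul_of_nonneg_left (Real.exp_le_exp.2 ?_) (by positivity)
        linarith
    _ ≤ N * ∑ n ∈ range (2 * x), (repF B n : ℝ) ^ 2 := hmain
    _ = m * x * ∑ n ∈ range (2 * x), (repF B n : ℝ) ^ 2 := by rw [hNR']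

end Pool.Agent.Helper81.NM
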