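import Pool.Agent.Helper81.NM.Bridge

/-!
Lacunary real moduli and arcs depending on the index.
-/

set_option autoImplicit false

open Finset Real

namespace Pool.Agent.Helper81.NM

open Pool.Agent.Helper25.RC (repF)
open Pool.Agent.Helper38.RC (expSum)
open Pool.Agent.Helper7.ET (e e_add e_zero norm_e expSum_eq)

open Classical in
/-- how often the points `y i` lie in the arcs which begin at `u i` and have length `l i` -/
noncomputable def hits (k : ℕ) (y u l : ℕ → ℝ) : ℕ := #{i ∈ range k | Int.fract (y i - u i) < l i}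

/-- the criterion of Weyl for arcs which depend on the index -/
def WA (η : ℝ) : Prop := ∃ (H : ℕ) (ε : ℝ), 0 < ε ∧ ∀ u l : ℕ → ℝ, (∀ i, 0 ≤ l i ∧ l i ≤ 1) →
  ∃ c : Bool → ℕ → ℕ → ℂ, (∀ s i h, ‖c s i h‖ ≤ 1) ∧ ∀ (k : ℕ) (y : ℕ → ℝ),
    η * k ≤ |(hits k y u l : ℝ) - ∑ i ∈ range k, l i| →
    ∃ s : Bool, ∃ h : ℕ, 1 ≤ h ∧ h ≤ H ∧ ε * k ≤ (∑ i ∈ range k, c s i h * e (h * y i)).re

theorem repF_sum {x : ℕ} {B : Finset ℕ} (hB : B ⊆ range x) :
    ∑ n ∈ range (2 * x), (repF B n : ℝ) = (#B : ℝ) ^ 2 := by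
  have h1 : ∑ n ∈ range (2 * x), repF B n = #(B ×ˢ B) := by
    unfold repF
    rw [← Finset.card_eq_sum_card_fiberwise]
    intro p hp
    rw [Finset.mem_coe, mem_product] at hp
    have h2 := mem_range.1 (hB hp.1)
    have h3 := mem_range.1 (hB hp.2)
    simp only [coe_range, Set.mem_Iio]
    omega
  rw [card_product] at h1
  have h2 : ((∑ n ∈ range (2 * x), repF B n : ℕ) : ℝ) = ((#B * #B : ℕ) : ℝ) := by rw [h1]
  push_cast at h2
  rw [h2, sq]

theorem trivial_energy {x : ℕ} {B : Finset ℕ} (hB : B ⊆ range x) :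
    (#B : ℝ) ^ 4 ≤ 2 * x * ∑ n ∈ range (2 * x), (repF B n : ℝ) ^ 2 := by
  have h1 := sq_sum_le_card_mul_sum_sq (s := range (2 * x)) (f := fun n => (repF B n : ℝ))
  rw [repF_sum hB, card_range] at h1
  push_cast at h1
  calc (#B : ℝ) ^ 4 = ((#B : ℝ) ^ 2) ^ 2 := by ring
    _ ≤ _ := h1

theorem repF_mono {B B' : Finset ℕ} (h : B' ⊆ B) (n : ℕ) : repF B' n ≤ repF B n := by
  unfold repF
  exact card_le_card (filter_subset_filter _ (product_subset_product h h))

theorem energy_mono {x : ℕ} {B B' : Finset ℕ} (h : B' ⊆ B) :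
    ∑ n ∈ range (2 * x), (repF B' n : ℝ) ^ 2 ≤ ∑ n ∈ range (2 * x), (repF B n : ℝ) ^ 2 := by
  refine Finset.sum_le_sum fun n _ => ?_
  have : (repF B' n : ℝ) ≤ repF B n := by exact_mod_cast repF_mono h n
  exact pow_le_pow_left₀ (by positivity) this 2

/-- splitting into residue classes -/
theorem sum_classes (R k : ℕ) (hR : 0 < R) (f : ℕ → ℝ) :
    ∑ i ∈ range k, f i = ∑ t ∈ range R, ∑ j ∈ range ((k - t + R - 1) / R), f (t + R * j) := by
  have h1 : ∀ t ∈ range R, ∑ j ∈ range ((k - t + R - 1) / R), f (t + R * j)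
      = ∑ i ∈ range k with i % R = t, f i := by
    intro t ht
    rw [mem_range] at ht
    refine Finset.sum_nbij' (fun j => t + R * j) (fun i => i / R) ?_ ?_ ?_ ?_ ?_
    · intro j hj
      rw [mem_range, Nat.lt_div_iff_mul_lt hR] at hj
      rw [mem_filter, mem_range, Nat.add_mul_mod_self_left, Nat.mod_eq_of_lt ht]
      refine ⟨?_, rfl⟩
      rw [Nat.mul_comm]
      omega
    · intro i hi
      rw [mem_filter, mem_range] at hi
      rw [mem_range, Nat.lt_div_iff_mul_lt hR]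
      have h2 := Nat.mod_add_div i R
      rw [Nat.mul_comm (i / R) R]
      omega
    · intro j _
      show (t + R * j) / R = j
      rw [Nat.add_mul_div_left _ _ hR, Nat.div_eq_of_lt ht, zero_add]
    · intro i hi
      rw [mem_filter] at hi
      show t + R * (i / R) = i
      rw [← hi.2]
      exact Nat.mod_add_div i R
    · intro j _
      rfl
  rw [Finset.sum_congr rfl h1]
  exact (Finset.sum_fiberwise_of_maps_to (fun i _ => mem_range.2 (Nat.mod_lt _ hR)) _).symm

theorem pigeon {α β : Type} [DecidableEq β] (B : Finset α) (P : Finset β) (f : α → β)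
    (hf : ∀ a ∈ B, f a ∈ P) (hne : B.Nonempty) :
    ∃ p ∈ P, #B ≤ #P * #{a ∈ B | f a = p} := by
  have hP : P.Nonempty := by
    obtain ⟨a, ha⟩ := hne
    exact ⟨f a, hf a ha⟩
  obtain ⟨p, hp, hmax⟩ := Finset.exists_max_image P (fun p => #{a ∈ B | f a = p}) hP
  refine ⟨p, hp, ?_⟩
  rw [Finset.card_eq_sum_card_fiberwise hf, ← smul_eq_mul]
  exact Finset.sum_le_card_nsmul _ _ _ hmax

theorem M_pow {lam : ℝ} (hl : 1 < lam) {M : ℕ → ℝ} {k : ℕ}
    (hM : ∀ i, i + 1 < k → lam * M i ≤ M (i + 1)) (i : ℕ) :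
    ∀ r, i + r < k → lam ^ r * M i ≤ M (i + r) := by
  intro r
  induction r with
  | zero => intro _; simp
  | succ r ih =>
    intro hr
    have h1 := ih (by omega)
    have h2 := hM (i + r) (by omega)
    have h3 : lam * (lam ^ r * M i) ≤ lam * M (i + r) :=
      mul_le_mul_of_nonneg_left h1 (by linarith)
    have h4 : lam ^ (r + 1) * M i = lam * (lam ^ r * M i) := by ring
    rw [h4]
    exact h3.trans h2

/-- REAL LACUNARY MODULI AND ARCS DEPENDING ON THE INDEX. -/
theorem nl_of {lam η : ℝ} (hl : 1 < lam) (hW : WA η) : ∃ c : ℝ, 0 < c ∧ ∃ C : ℝ, 0 < C ∧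
    ∀ (x k : ℕ) (M u l : ℕ → ℝ) (B : Finset ℕ), B ⊆ range x → (∀ i < k, 1 ≤ M i ∧ M i ≤ x) →
    (∀ i, i + 1 < k → lam * M i ≤ M (i + 1)) → (∀ i, 0 ≤ l i ∧ l i ≤ 1) →
    (∀ a ∈ B, η * k ≤ |(hits k (fun i => a / M i) u l : ℝ) - ∑ i ∈ range k, l i|) →
    (#B : ℝ) ^ 4 * Real.exp (c * k) ≤ C * x * ∑ n ∈ range (2 * x), (repF B n : ℝ) ^ 2 := by
  classical
  obtain ⟨H, ε, hε, hW⟩ := hW
  obtain ⟨R, hR⟩ := pow_unbounded_of_one_lt 4 hl
  obtain ⟨i0, hi0⟩ := pow_unbounded_of_one_lt (4 * ((H : ℝ) + 1)) hl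
  have hRpos : 0 < R := by
    rcases Nat.eq_zero_or_pos R with rfl | h
    · norm_num at hR
    · exact h
  have hRR : (0 : ℝ) < R := by exact_mod_cast hRpos
  set ε1 : ℝ := ε / (2 * R) with hε1
  have hε1pos : 0 < ε1 := by positivity
  obtain ⟨C1, hC1, hlac⟩ := lac_energy expE hε1pos
  set c : ℝ := ε1 ^ 4 / 64 * ε1 with hc
  have hc0 : 0 < c := by positivity
  refine ⟨c, hc0, 2 * Real.exp (c * (2 * i0 / ε)) + C1 * (2 * (H + 1)) ^ 4, by positivity, ?_⟩
  intro x k M u l B hB hM hlam hl01 hdev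
  set E : ℝ := ∑ n ∈ range (2 * x), (repF B n : ℝ) ^ 2 with hE
  have hE0 : 0 ≤ E := by positivity
  have hxE : 0 ≤ x * E := by positivity
  rcases le_or_gt (ε * k) (2 * i0) with hk | hk
  · have h1 := trivial_energy hB
    have h2 : Real.exp (c * k) ≤ Real.exp (c * (2 * i0 / ε)) := by
      refine Real.exp_le_exp.2 (mul_le_mul_of_nonneg_left ?_ hc0.le)
      rw [le_div_iff₀ hε]
      linarith
    calc (#B : ℝ) ^ 4 * Real.exp (c * k) ≤ (2 * x * E) * Real.exp (c * (2 * i0 / ε)) :=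
          mul_le_mul h1 h2 (Real.exp_pos _).le (by positivity)
      _ = 2 * Real.exp (c * (2 * i0 / ε)) * (x * E) := by ring
      _ ≤ (2 * Real.exp (c * (2 * i0 / ε)) + C1 * (2 * (H + 1)) ^ 4) * (x * E) :=
          mul_le_mul_of_nonneg_right (le_add_of_nonneg_right (by positivity)) hxE
      _ = _ := by ring
  rcases B.eq_empty_or_nonempty with hBe | hne
  · rw [hBe, Finset.card_empty, Nat.cast_zero]
    have h0 : (0 : ℝ) ^ 4 * Real.exp (c * k) = 0 := by ring
    rw [h0]
    positivity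
  obtain ⟨cf, hcf, hW⟩ := hW u l hl01
  have hch : ∀ a : ℕ, ∃ p : Bool × ℕ, a ∈ B → 1 ≤ p.2 ∧ p.2 ≤ H ∧
      ε * k ≤ (∑ i ∈ range k, cf p.1 i p.2 * e (p.2 * (a / M i))).re := by
    intro a
    by_cases ha : a ∈ B
    · obtain ⟨s, h, h1, h2, h3⟩ := hW k (fun i => a / M i) (hdev a ha)
      exact ⟨(s, h), fun _ => ⟨h1, h2, h3⟩⟩
    · exact ⟨(true, 0), fun h => absurd h ha⟩
  choose pf hpf using hch
  obtain ⟨⟨s, h⟩, hsh, hcard⟩ := pigeon B ((Finset.univ : Finset Bool) ×ˢ range (H + 1)) pf (by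
    intro a ha
    rw [mem_product, mem_range]
    exact ⟨mem_univ _, by have := (hpf a ha).2.1; omega⟩) hne
  set B' : Finset ℕ := {a ∈ B | pf a = (s, h)} with hB'
  have hB'B : B' ⊆ B := filter_subset _ _
  have hB'x : B' ⊆ range x := hB'B.trans hB
  have hcardP : #((Finset.univ : Finset Bool) ×ˢ range (H + 1)) = 2 * (H + 1) := by
    rw [card_product, card_range]
    rfl
  rw [hcardP] at hcard
  have hne' : B'.Nonempty := by
    rw [← Finset.card_pos]
    by_contra h0
    have h1 : #B' = 0 := by omega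
    rw [h1, mul_zero] at hcard
    have := hne.card_pos
    omega
  have hT : (0 : ℝ) < #B' := by exact_mod_cast hne'.card_pos
  have hmem : ∀ a ∈ B', 1 ≤ h ∧ h ≤ H ∧
      ε * k ≤ (∑ i ∈ range k, cf s i h * e (h * (a / M i))).re := by
    intro a ha
    rw [hB', mem_filter] at ha
    have h1 := hpf a ha.1
    rw [ha.2] at h1
    exact h1
  have hh1 : 1 ≤ h := by
    obtain ⟨a, ha⟩ := hne'
    exact (hmem a ha).1
  have hhH : h ≤ H := by
    obtain ⟨a, ha⟩ := hne'
    exact (hmem a ha).2.1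
  have hh1R : (1 : ℝ) ≤ h := by exact_mod_cast hh1
  have hhHR : (h : ℝ) ≤ H := by exact_mod_cast hhH
  set f : ℕ → ℝ := fun i => ‖expSum B' (h / M i)‖ with hf
  have hfle : ∀ i, f i ≤ #B' := by
    intro i
    simp only [hf]
    rw [expSum_eq]
    refine (norm_sum_le _ _).trans ?_
    simp [norm_e]
  have hf0 : ∀ i, 0 ≤ f i := fun i => norm_nonneg _
  have hsum : ε * k * #B' ≤ ∑ i ∈ range k, f i := by
    have h1 : ∑ a ∈ B', (ε * k) ≤ ∑ a ∈ B', (∑ i ∈ range k, cf s i h * e (h * (a / M i))).re :=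
      Finset.sum_le_sum fun a ha => (hmem a ha).2.2
    rw [Finset.sum_const, nsmul_eq_mul, ← Complex.re_sum, Finset.sum_comm] at h1
    have h2 : (∑ i ∈ range k, ∑ a ∈ B', cf s i h * e (h * (a / M i))).re
        ≤ ∑ i ∈ range k, f i := by
      refine (Complex.re_le_norm _).trans ((norm_sum_le _ _).trans ?_)
      refine Finset.sum_le_sum fun i _ => ?_
      rw [← Finset.mul_sum, norm_mul]
      have h3 : ∑ a ∈ B', e (h * (a / M i)) = expSum B' (h / M i) := by
        rw [expSum_eq]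
        refine Finset.sum_congr rfl fun a _ => ?_
        congr 1
        ring
      rw [h3]
      have h4 := mul_le_mul_of_nonneg_right (hcf s i h) (norm_nonneg (expSum B' (h / M i)))
      rw [one_mul] at h4
      exact h4
    linarith
  -- `ε ≤ 1`
  have hk0 : (0 : ℝ) < k := by
    by_contra h0
    have h1 : (k : ℝ) = 0 := le_antisymm (not_lt.1 h0) (Nat.cast_nonneg k)
    rw [h1, mul_zero] at hk
    have : (0 : ℝ) ≤ 2 * i0 := by positivity
    linarith
  have hsumle : ∑ i ∈ range k, f i ≤ k * #B' := by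
    have := Finset.sum_le_card_nsmul (range k) f (#B' : ℝ) fun i _ => hfle i
    rwa [card_range, nsmul_eq_mul] at this
  have hεk : ε * k ≤ k := by
    have h1 : ε * k * #B' ≤ k * #B' := hsum.trans hsumle
    exact le_of_mul_le_mul_right h1 hT
  have hi0k : 2 * i0 < k := by
    have : (2 * i0 : ℝ) < k := by linarith
    exact_mod_cast this
  -- the first `i0` indices are dropped
  have hsplit : ∑ i ∈ range k, f i = ∑ i ∈ range i0, f i + ∑ j ∈ range (k - i0), f (i0 + j) := by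
    rw [← Finset.sum_range_add, Nat.add_sub_cancel' (by omega)]
  have hfirst : ∑ i ∈ range i0, f i ≤ i0 * #B' := by
    have := Finset.sum_le_card_nsmul (range i0) f (#B' : ℝ) fun i _ => hfle i
    rwa [card_range, nsmul_eq_mul] at this
  have hrest : ε / 2 * k * #B' ≤ ∑ j ∈ range (k - i0), f (i0 + j) := by
    have h1 : (i0 : ℝ) * #B' ≤ ε / 2 * k * #B' := by
      refine mul_le_mul_of_nonneg_right ?_ hT.le
      linarith
    linarith
  rw [sum_classes R (k - i0) hRpos] at hrest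
  obtain ⟨t, ht, hclass⟩ := Finset.exists_le_of_sum_le (s := range R)
    (f := fun _ => ε1 * k * #B')
    (g := fun t => ∑ j ∈ range ((k - i0 - t + R - 1) / R), f (i0 + (t + R * j)))
    ⟨0, mem_range.2 hRpos⟩ (by
      rw [Finset.sum_const, card_range, nsmul_eq_mul]
      refine le_trans (le_of_eq ?_) hrest
      rw [hε1]
      field_simp)
  rw [mem_range] at ht
  set kt : ℕ := (k - i0 - t + R - 1) / R with hkt
  have hidx : ∀ j < kt, i0 + (t + R * j) < k := by
    intro j hj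
    rw [hkt, Nat.lt_div_iff_mul_lt hRpos, Nat.mul_comm] at hj
    omega
  have hktk : kt ≤ k := by
    rw [hkt]
    refine (Nat.div_le_iff_le_mul_add_pred hRpos).2 ?_
    have : k ≤ R * k := Nat.le_mul_of_pos_left k hRpos
    omega
  have hktk' : (kt : ℝ) ≤ k := by exact_mod_cast hktk
  have hkt2 : ε1 * k ≤ kt := by
    have h1 : ∑ j ∈ range kt, f (i0 + (t + R * j)) ≤ kt * #B' := by
      have := Finset.sum_le_card_nsmul (range kt) (fun j => f (i0 + (t + R * j))) (#B' : ℝ)
        fun i _ => hfle _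
      rwa [card_range, nsmul_eq_mul] at this
    exact le_of_mul_le_mul_right (hclass.trans h1) hT
  have hMpos : ∀ i < k, 0 < M i := fun i hi => lt_of_lt_of_le one_pos (hM i hi).1
  have hres := hlac x B' kt (fun j => h / M (i0 + (t + R * j))) hB'x (by
    intro j hj
    have hj' := hidx j hj
    have hm := hMpos _ hj'
    constructor
    · have h1 := (hM _ hj').2
      have h2 : 1 / (x : ℝ) ≤ 1 / M (i0 + (t + R * j)) := one_div_le_one_div_of_le hm h1
      have h3 : 1 / M (i0 + (t + R * j)) ≤ h / M (i0 + (t + R * j)) :=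
        div_le_div_of_nonneg_right hh1R hm.le
      exact h2.trans h3
    · rw [div_le_div_iff₀ hm (by norm_num)]
      have h1 := M_pow hl hlam 0 (i0 + (t + R * j)) (by omega)
      rw [zero_add] at h1
      have h2 := (hM 0 (by omega)).1
      have h3 : lam ^ i0 ≤ lam ^ (i0 + (t + R * j)) := pow_le_pow_right₀ hl.le (by omega)
      have h4 : lam ^ (i0 + (t + R * j)) ≤ lam ^ (i0 + (t + R * j)) * M 0 :=
        le_mul_of_one_le_right (by positivity) h2
      linarith) (by
    intro j hj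
    have h0 := hidx j (by omega)
    have h0' := hidx (j + 1) hj
    have hm := hMpos _ h0
    have hm' := hMpos _ h0'
    have h1 := M_pow hl hlam (i0 + (t + R * j)) R (by
      have e1 : i0 + (t + R * j) + R = i0 + (t + R * (j + 1)) := by ring
      rw [e1]
      exact h0')
    have e1 : i0 + (t + R * j) + R = i0 + (t + R * (j + 1)) := by ring
    rw [e1] at h1
    show 4 * (h / M (i0 + (t + R * (j + 1)))) ≤ h / M (i0 + (t + R * j))
    have h2 : 4 * M (i0 + (t + R * j)) ≤ M (i0 + (t + R * (j + 1))) := by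
      have := mul_le_mul_of_nonneg_right hR.le hm.le
      linarith
    rw [← mul_div_assoc, div_le_div_iff₀ hm' hm]
    nlinarith) (by
    have h1 : ε1 * kt * #B' ≤ ε1 * k * #B' := by gcongr
    exact h1.trans hclass)
  have hexp : Real.exp (c * k) ≤ Real.exp (ε1 ^ 4 / 64 * kt) := by
    refine Real.exp_le_exp.2 ?_
    rw [hc, mul_assoc]
    exact mul_le_mul_of_nonneg_left hkt2 (by positivity)
  have hEm := energy_mono (x := x) hB'B
  have hcardR : (#B : ℝ) ≤ 2 * (H + 1) * #B' := by exact_mod_cast hcard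
  calc (#B : ℝ) ^ 4 * Real.exp (c * k)
      ≤ (2 * (H + 1) * #B') ^ 4 * Real.exp (ε1 ^ 4 / 64 * kt) :=
        mul_le_mul (pow_le_pow_left₀ (by positivity) hcardR 4) hexp (Real.exp_pos _).le
          (by positivity)
    _ = (2 * (H + 1)) ^ 4 * ((#B' : ℝ) ^ 4 * Real.exp (ε1 ^ 4 / 64 * kt)) := by ring
    _ ≤ (2 * (H + 1)) ^ 4 * (C1 * x * ∑ n ∈ range (2 * x), (repF B' n : ℝ) ^ 2) :=
        mul_le_mul_of_nonneg_left hres (by positivity)
    _ ≤ (2 * (H + 1)) ^ 4 * (C1 * x * E) := by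
        refine mul_le_mul_of_nonneg_left ?_ (by positivity)
        exact mul_le_mul_of_nonneg_left hEm (by positivity)
    _ = C1 * (2 * (H + 1)) ^ 4 * (x * E) := by ring
    _ ≤ (2 * Real.exp (c * (2 * i0 / ε)) + C1 * (2 * (H + 1)) ^ 4) * (x * E) :=
        mul_le_mul_of_nonneg_right (le_add_of_nonneg_left (by positivity)) hxE
    _ = _ := by ring

end Pool.Agent.Helper81.NM
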