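import Pool.Agent.Helper81.NM.NL
import Pool.Agent.Helper73.NM.Arcs

/-!
Real lacunary moduli and arcs: the theorem without hypotheses.
-/

set_option autoImplicit false

open Finset Real

namespace Pool.Agent.Helper81.NM

open Pool.Agent.Helper25.RC (repF)
open Pool.Agent.Helper7.ET (e)

theorem ee_eq (t : ℝ) : Pool.Agent.Helper73.MD.ee t = e t := rfl

theorem wa {η : ℝ} (hη : 0 < η) : WA η := by
  obtain ⟨H, ε, hε, h⟩ := Pool.Agent.Helper73.NM.weyl_arcs hη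
  refine ⟨H, ε, hε, fun u l hl => ?_⟩
  obtain ⟨c, hc, h⟩ := h u l hl
  refine ⟨c, hc, fun k y hk => ?_⟩
  have e1 : (hits k y u l : ℝ) = (#{i ∈ range k | Int.fract (y i - u i) < l i} : ℝ) := by
    unfold hits
    congr 2
  rw [e1] at hk
  exact h k y hk

/-- REAL LACUNARY MODULI AND ARCS. -/
theorem nl {lam η : ℝ} (hl : 1 < lam) (hη : 0 < η) : ∃ c : ℝ, 0 < c ∧ ∃ C : ℝ, 0 < C ∧
    ∀ (x k : ℕ) (M u l : ℕ → ℝ) (B : Finset ℕ), B ⊆ range x → (∀ i < k, 1 ≤ M i ∧ M i ≤ x) →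
    (∀ i, i + 1 < k → lam * M i ≤ M (i + 1)) → (∀ i, 0 ≤ l i ∧ l i ≤ 1) →
    (∀ a ∈ B, η * k ≤ |(hits k (fun i => a / M i) u l : ℝ) - ∑ i ∈ range k, l i|) →
    (#B : ℝ) ^ 4 * Real.exp (c * k) ≤ C * x * ∑ n ∈ range (2 * x), (repF B n : ℝ) ^ 2 :=
  nl_of hl (wa hη)

end Pool.Agent.Helper81.NM
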