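import Pool.Agent.Helper81.NM.NLF

/-!
Pairs: the digits of `a` and of `n = a + a'` are independent for almost all representations.
-/

set_option autoImplicit false

open Finset Real

namespace Pool.Agent.Helper81.NM

open Pool.Agent.Helper25.RC (repF)

open Classical in
/-- how often `y i` lies in the first arc and `z i` in the second arc -/
noncomputable def hits2 (k : ℕ) (y u l z u' l' : ℕ → ℝ) : ℕ :=
  #{i ∈ range k | Int.fract (y i - u i) < l i ∧ Int.fract (z i - u' i) < l' i}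

open Classical in
theorem hits_cast (k : ℕ) (y u l : ℕ → ℝ) : (hits k y u l : ℝ)
    = ∑ i ∈ range k, if Int.fract (y i - u i) < l i then (1 : ℝ) else 0 := by
  unfold hits
  rw [Finset.card_filter]
  push_cast
  rfl

open Classical in
theorem hits2_cast (k : ℕ) (y u l z u' l' : ℕ → ℝ) : (hits2 k y u l z u' l' : ℝ)
    = ∑ i ∈ range k, if Int.fract (y i - u i) < l i ∧ Int.fract (z i - u' i) < l' i
      then (1 : ℝ) else 0 := by
  unfold hits2
  rw [Finset.card_filter]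
  push_cast
  rfl

/-- fourth roots -/
theorem le_root {n W : ℝ} (hn : 0 ≤ n) (h : n ^ 4 ≤ W) : n ≤ √(√W) := by
  refine Real.le_sqrt_of_sq_le (Real.le_sqrt_of_sq_le ?_)
  calc (n ^ 2) ^ 2 = n ^ 4 := by ring
    _ ≤ W := h

theorem root_pow {W : ℝ} (hW : 0 ≤ W) : √(√W) ^ 4 = W := by
  calc √(√W) ^ 4 = (√(√W) ^ 2) ^ 2 := by ring
    _ = (√W) ^ 2 := by rw [Real.sq_sqrt (Real.sqrt_nonneg _)]
    _ = W := Real.sq_sqrt hW

open Classical in
/-- the levels of a weight -/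
theorem levels {η : ℝ} {m : ℕ} (hm : 4 ≤ m * η) (k : ℕ) (l : ℕ → ℝ)
    (hl : ∀ i, 0 ≤ l i ∧ l i ≤ 1) (g : ℕ → ℝ) (hg : ∀ i, |g i| ≤ 1)
    (h : η / 2 * k ≤ |∑ i ∈ range k, l i * g i|) :
    ∃ j ∈ range m, η / 4 * k ≤ |∑ i ∈ range k, if ((j : ℝ) + 1) ≤ m * l i then g i else 0| := by
  by_contra hcon
  push Not at hcon
  rcases Nat.eq_zero_or_pos m with h0 | hm0
  · rw [h0] at hm
    norm_num at hm
  have hmR : (0 : ℝ) < m := by exact_mod_cast hm0
  have h1 : ∀ i, ∑ j ∈ range m, (if ((j : ℝ) + 1) ≤ m * l i then g i else 0)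
      = (⌊(m : ℝ) * l i⌋₊ : ℝ) * g i := by
    intro i
    have hml : (⌊(m : ℝ) * l i⌋₊ : ℝ) ≤ m := by
      refine (Nat.floor_le (mul_nonneg hmR.le (hl i).1)).trans ?_
      exact mul_le_of_le_one_right hmR.le (hl i).2
    have hml' : ⌊(m : ℝ) * l i⌋₊ ≤ m := by exact_mod_cast hml
    rw [← Finset.sum_filter, Finset.sum_const, nsmul_eq_mul]
    congr 2
    have : (range m).filter (fun j : ℕ => (j : ℝ) + 1 ≤ m * l i) = range ⌊(m : ℝ) * l i⌋₊ := by
      ext j
      rw [mem_filter, mem_range, mem_range]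
      have h4 : j + 1 ≤ ⌊(m : ℝ) * l i⌋₊ ↔ (j : ℝ) + 1 ≤ m * l i := by
        rw [Nat.le_floor_iff (mul_nonneg hmR.le (hl i).1)]
        push_cast
        rfl
      constructor
      · intro h2
        have := h4.2 h2.2
        omega
      · intro h2
        exact ⟨by omega, h4.1 (by omega)⟩
    rw [this, card_range]
  have h2 : ∑ j ∈ range m, ∑ i ∈ range k, (if ((j : ℝ) + 1) ≤ m * l i then g i else 0)
      = ∑ i ∈ range k, (⌊(m : ℝ) * l i⌋₊ : ℝ) * g i := by
    rw [Finset.sum_comm]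
    exact Finset.sum_congr rfl fun i _ => h1 i
  have h3 : |∑ i ∈ range k, (⌊(m : ℝ) * l i⌋₊ : ℝ) * g i| ≤ m * (η / 4 * k) := by
    rw [← h2]
    refine (Finset.abs_sum_le_sum_abs _ _).trans ?_
    have := Finset.sum_le_card_nsmul (range m)
      (fun j => |∑ i ∈ range k, (if ((j : ℝ) + 1) ≤ m * l i then g i else 0)|) (η / 4 * k)
      fun j hj => (hcon j hj).le
    rwa [card_range, nsmul_eq_mul] at this
  have h3' : k ≠ 0 → |∑ i ∈ range k, (⌊(m : ℝ) * l i⌋₊ : ℝ) * g i| < m * (η / 4 * k) := by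
    intro _
    rw [← h2]
    refine (Finset.abs_sum_le_sum_abs _ _).trans_lt ?_
    have := Finset.sum_lt_sum_of_nonempty (s := range m) ⟨0, mem_range.2 hm0⟩
      (f := fun j : ℕ => |∑ i ∈ range k, (if ((j : ℝ) + 1) ≤ m * l i then g i else 0)|)
      (g := fun _ => η / 4 * k) hcon
    rwa [Finset.sum_const, card_range, nsmul_eq_mul] at this
  have h4 : |∑ i ∈ range k, (m * (l i * g i) - (⌊(m : ℝ) * l i⌋₊ : ℝ) * g i)| ≤ k := by
    refine (Finset.abs_sum_le_sum_abs _ _).trans ?_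
    have h5 : ∀ i ∈ range k, |(m : ℝ) * (l i * g i) - (⌊(m : ℝ) * l i⌋₊ : ℝ) * g i| ≤ 1 := by
      intro i _
      have e1 : (m : ℝ) * (l i * g i) - (⌊(m : ℝ) * l i⌋₊ : ℝ) * g i
          = (m * l i - ⌊(m : ℝ) * l i⌋₊) * g i := by ring
      rw [e1, abs_mul]
      have h6 := Nat.floor_le (mul_nonneg hmR.le (hl i).1)
      have h7 := (Nat.lt_floor_add_one ((m : ℝ) * l i)).le
      have h8 : |(m : ℝ) * l i - ⌊(m : ℝ) * l i⌋₊| ≤ 1 := by
        rw [abs_le]
        constructor <;> linarith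
      calc |(m : ℝ) * l i - ⌊(m : ℝ) * l i⌋₊| * |g i| ≤ 1 * 1 :=
            mul_le_mul h8 (hg i) (abs_nonneg _) zero_le_one
        _ = 1 := one_mul 1
    have := Finset.sum_le_card_nsmul (range k) _ (1 : ℝ) h5
    rwa [card_range, nsmul_eq_mul, mul_one] at this
  rw [Finset.sum_sub_distrib, ← Finset.mul_sum] at h4
  rcases Nat.eq_zero_or_pos k with hk | hk
  · subst hk
    have := hcon 0 (mem_range.2 hm0)
    simp at this
  · have h5 := h3' hk.ne'
    have hkR : (0 : ℝ) < k := by exact_mod_cast hk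
    have h6 : (m : ℝ) * |∑ i ∈ range k, l i * g i| ≤ k + |∑ i ∈ range k, (⌊(m : ℝ) * l i⌋₊ : ℝ) * g i| := by
      have h7 := abs_sub_abs_le_abs_sub ((m : ℝ) * ∑ i ∈ range k, l i * g i)
        (∑ i ∈ range k, (⌊(m : ℝ) * l i⌋₊ : ℝ) * g i)
      rw [abs_mul, abs_of_pos hmR] at h7
      linarith
    have h7 : (m : ℝ) * (η / 2 * k) ≤ m * |∑ i ∈ range k, l i * g i| :=
      mul_le_mul_of_nonneg_left h hmR.le
    have h8 : (k : ℝ) ≤ m * (η / 4 * k) := by
      have : (4 : ℝ) * k ≤ m * η * k := mul_le_mul_of_nonneg_right hm hkR.le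
      linarith
    have h9 : (m : ℝ) * (η / 2 * k) = m * (η / 4 * k) + m * (η / 4 * k) := by ring
    linarith

open Classical in
/-- the pairs which deviate -/
noncomputable def bad (S : Finset ℕ) (k : ℕ) (M u l u' l' : ℕ → ℝ) (η : ℝ) : Finset (ℕ × ℕ) :=
  {p ∈ S ×ˢ S | η * k ≤ |(hits2 k (fun i => ((p.1 : ℝ) + p.2) / M i) u l
    (fun i => (p.1 : ℝ) / M i) u' l' : ℝ) - ∑ i ∈ range k, l i * l' i|}

/-- PAIRS. -/
theorem nlp {lam η : ℝ} (hlam : 1 < lam) (hη : 0 < η) : ∃ c : ℝ, 0 < c ∧ ∃ C : ℝ, 0 < C ∧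
    ∀ (x k : ℕ) (M u l u' l' : ℕ → ℝ) (S : Finset ℕ), S ⊆ range x →
    (∀ i < k, 1 ≤ M i ∧ M i ≤ x) → (∀ i, i + 1 < k → lam * M i ≤ M (i + 1)) →
    (∀ i, 0 ≤ l i ∧ l i ≤ 1) → (∀ i, 0 ≤ l' i ∧ l' i ≤ 1) →
    (#(bad S k M u l u' l' η) : ℝ) ^ 2 * Real.exp (c * k) ≤
      C * x * ∑ n ∈ range (2 * x), (repF S n : ℝ) ^ 2 := by
  classical
  obtain ⟨m, hm⟩ := exists_nat_ge (4 / η)
  have hm4 : 4 ≤ m * η := by rwa [div_le_iff₀ hη] at hm
  obtain ⟨c, hc, C, hC, hnl⟩ := nl (η := η / 4) hlam (by positivity)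
  refine ⟨c / 2, by positivity, (m + 1) ^ 2 * √(2 * C), by positivity, ?_⟩
  intro x k M u l u' l' S hS hM hMl hl hl'
  set E : ℝ := ∑ n ∈ range (2 * x), (repF S n : ℝ) ^ 2 with hE
  have hE0 : 0 ≤ E := by positivity
  set W : ℝ := C * x * E * Real.exp (-(c * k)) with hW
  have hW0 : 0 ≤ W := by positivity
  set Y : ℝ := √(√W) with hY
  have hY0 : 0 ≤ Y := Real.sqrt_nonneg _
  -- sets which deviate are small
  have hsmall : ∀ (B : Finset ℕ) (v t : ℕ → ℝ), B ⊆ S → (∀ i, 0 ≤ t i ∧ t i ≤ 1) →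
      (∀ a ∈ B, η / 4 * k ≤ |(hits k (fun i => a / M i) v t : ℝ) - ∑ i ∈ range k, t i|) →
      (#B : ℝ) ≤ Y := by
    intro B v t hB ht hdev
    refine le_root (Nat.cast_nonneg _) ?_
    have h1 := hnl x k M v t B (hB.trans hS) hM hMl ht hdev
    have h2 := energy_mono (x := x) hB
    have h3 : (#B : ℝ) ^ 4 * Real.exp (c * k) ≤ C * x * E :=
      h1.trans (mul_le_mul_of_nonneg_left h2 (by positivity))
    have h4 : (#B : ℝ) ^ 4 = (#B : ℝ) ^ 4 * Real.exp (c * k) * Real.exp (-(c * k)) := by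
      rw [mul_assoc, ← Real.exp_add, add_neg_cancel, Real.exp_zero, mul_one]
    rw [h4]
    exact mul_le_mul_of_nonneg_right h3 (Real.exp_pos _).le
  set la : ℕ → ℕ → ℝ := fun a i => if Int.fract ((a : ℝ) / M i - u' i) < l' i then l i else 0
    with hla
  set ua : ℕ → ℕ → ℝ := fun a i => u i - (a : ℝ) / M i with hua
  have hla01 : ∀ a i, 0 ≤ la a i ∧ la a i ≤ 1 := by
    intro a i
    simp only [hla]
    split_ifs
    · exact hl i
    · exact ⟨le_rfl, zero_le_one⟩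
  set B1 : ℕ → Finset ℕ := fun a => {b ∈ S | η / 4 * k ≤
    |(hits k (fun i => b / M i) (ua a) (la a) : ℝ) - ∑ i ∈ range k, la a i|} with hB1
  set lj : ℕ → ℕ → ℝ := fun j i => if ((j : ℝ) + 1) ≤ m * l i then l' i else 0 with hlj
  have hlj01 : ∀ j i, 0 ≤ lj j i ∧ lj j i ≤ 1 := by
    intro j i
    simp only [hlj]
    split_ifs
    · exact hl' i
    · exact ⟨le_rfl, zero_le_one⟩
  set S2 : ℕ → Finset ℕ := fun j => {a ∈ S | η / 4 * k ≤
    |(hits k (fun i => a / M i) u' (lj j) : ℝ) - ∑ i ∈ range k, lj j i|} with hS2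
  have hB1Y : ∀ a, (#(B1 a) : ℝ) ≤ Y := fun a => hsmall (B1 a) (ua a) (la a) (filter_subset _ _)
    (hla01 a) fun b hb => (mem_filter.1 hb).2
  have hS2Y : ∀ j, (#(S2 j) : ℝ) ≤ Y := fun j => hsmall (S2 j) u' (lj j) (filter_subset _ _)
    (hlj01 j) fun b hb => (mem_filter.1 hb).2
  have hsub : bad S k M u l u' l' η ⊆ (S.biUnion fun a => {a} ×ˢ B1 a) ∪
      ((range m).biUnion fun j => S2 j ×ˢ S) := by
    rintro ⟨a, b⟩ hp
    unfold bad at hp
    rw [mem_filter, mem_product] at hp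
    obtain ⟨⟨ha, hb⟩, hD⟩ := hp
    simp only at ha hb hD
    rw [mem_union]
    by_cases h1 : b ∈ B1 a
    · left
      rw [mem_biUnion]
      exact ⟨a, ha, by rw [mem_product]; exact ⟨mem_singleton_self a, h1⟩⟩
    right
    have h2 : |(hits k (fun i => b / M i) (ua a) (la a) : ℝ) - ∑ i ∈ range k, la a i|
        < η / 4 * k := by
      by_contra h3
      exact h1 (mem_filter.2 ⟨hb, not_lt.1 h3⟩)
    have h3 : (hits2 k (fun i => ((a : ℝ) + b) / M i) u l (fun i => (a : ℝ) / M i) u' l' : ℝ)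
        = hits k (fun i => b / M i) (ua a) (la a) := by
      rw [hits2_cast, hits_cast]
      refine Finset.sum_congr rfl fun i _ => ?_
      have e1 : (b : ℝ) / M i - ua a i = ((a : ℝ) + b) / M i - u i := by
        simp only [hua]; ring
      rw [e1]
      simp only [hla]
      by_cases hq : Int.fract ((a : ℝ) / M i - u' i) < l' i
      · simp [hq]
      · have h4 : ¬ Int.fract (((a : ℝ) + b) / M i - u i) < 0 :=
          not_lt.2 (Int.fract_nonneg _)
        simp [hq, h4]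
    set g : ℕ → ℝ := fun i => (if Int.fract ((a : ℝ) / M i - u' i) < l' i then 1 else 0) - l' i
      with hg
    have hg1 : ∀ i, |g i| ≤ 1 := by
      intro i
      have h5 := hl' i
      simp only [hg]
      rw [abs_le]
      split_ifs <;> constructor <;> linarith
    have h4 : ∑ i ∈ range k, la a i - ∑ i ∈ range k, l i * l' i = ∑ i ∈ range k, l i * g i := by
      rw [← Finset.sum_sub_distrib]
      refine Finset.sum_congr rfl fun i _ => ?_
      simp only [hla, hg]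
      split_ifs <;> ring
    have h5 : η / 2 * k ≤ |∑ i ∈ range k, l i * g i| := by
      rw [h3] at hD
      have h6 : (hits k (fun i => b / M i) (ua a) (la a) : ℝ) - ∑ i ∈ range k, l i * l' i
          = ((hits k (fun i => b / M i) (ua a) (la a) : ℝ) - ∑ i ∈ range k, la a i)
            + ∑ i ∈ range k, l i * g i := by
        rw [← h4]; ring
      rw [h6] at hD
      have h7 := abs_add_le ((hits k (fun i => b / M i) (ua a) (la a) : ℝ)
        - ∑ i ∈ range k, la a i) (∑ i ∈ range k, l i * g i)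
      have h8 : 0 ≤ η * k := by positivity
      linarith
    obtain ⟨j, hj, h6⟩ := levels hm4 k l hl g hg1 h5
    rw [mem_biUnion]
    refine ⟨j, hj, ?_⟩
    rw [mem_product]
    refine ⟨mem_filter.2 ⟨ha, ?_⟩, hb⟩
    have h7 : (hits k (fun i => a / M i) u' (lj j) : ℝ) - ∑ i ∈ range k, lj j i
        = ∑ i ∈ range k, if ((j : ℝ) + 1) ≤ m * l i then g i else 0 := by
      rw [hits_cast, ← Finset.sum_sub_distrib]
      refine Finset.sum_congr rfl fun i _ => ?_
      simp only [hlj, hg]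
      by_cases hq : ((j : ℝ) + 1) ≤ m * l i
      · simp only [hq, if_true]
      · have h8 : ¬ Int.fract ((a : ℝ) / M i - u' i) < 0 := not_lt.2 (Int.fract_nonneg _)
        simp [hq, h8]
    rw [h7]
    exact h6
  have hcard : (#(bad S k M u l u' l' η) : ℝ) ≤ (m + 1) * #S * Y := by
    have h1 : (#(bad S k M u l u' l' η) : ℝ)
        ≤ (∑ a ∈ S, (#(B1 a) : ℝ)) + ∑ j ∈ range m, (#(S2 j) : ℝ) * #S := by
      have h2 := (card_le_card hsub).trans (card_union_le _ _)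
      have h3 : #(S.biUnion fun a => {a} ×ˢ B1 a) ≤ ∑ a ∈ S, #(B1 a) := by
        refine card_biUnion_le.trans_eq (Finset.sum_congr rfl fun a _ => ?_)
        rw [card_product, card_singleton, one_mul]
      have h4 : #((range m).biUnion fun j => S2 j ×ˢ S) ≤ ∑ j ∈ range m, #(S2 j) * #S := by
        refine card_biUnion_le.trans_eq (Finset.sum_congr rfl fun j _ => ?_)
        rw [card_product]
      have h5 : #(bad S k M u l u' l' η) ≤ (∑ a ∈ S, #(B1 a)) + ∑ j ∈ range m, #(S2 j) * #S := by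
        omega
      exact_mod_cast h5
    have h2 : ∑ a ∈ S, (#(B1 a) : ℝ) ≤ #S * Y := by
      have := Finset.sum_le_card_nsmul S (fun a => (#(B1 a) : ℝ)) Y fun a _ => hB1Y a
      rwa [nsmul_eq_mul] at this
    have h3 : ∑ j ∈ range m, (#(S2 j) : ℝ) * #S ≤ m * (Y * #S) := by
      have := Finset.sum_le_card_nsmul (range m) (fun j => (#(S2 j) : ℝ) * #S) (Y * #S)
        fun j _ => mul_le_mul_of_nonneg_right (hS2Y j) (Nat.cast_nonneg _)
      rwa [nsmul_eq_mul, card_range] at this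
    have h4 : ((m : ℝ) + 1) * #S * Y = #S * Y + m * (Y * #S) := by ring
    linarith
  have htriv := trivial_energy hS
  have h1 : ((#(bad S k M u l u' l' η) : ℝ) ^ 2 * Real.exp (c / 2 * k)) ^ 2
      ≤ ((m + 1) ^ 2 * √(2 * C) * x * E) ^ 2 := by
    have h2 : (#(bad S k M u l u' l' η) : ℝ) ^ 4 ≤ ((m + 1) * #S * Y) ^ 4 :=
      pow_le_pow_left₀ (Nat.cast_nonneg _) hcard 4
    have h3 : Real.exp (c / 2 * k) ^ 2 = Real.exp (c * k) := by
      rw [← Real.exp_nat_mul]
      congr 1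
      push_cast
      ring
    have h4 : √(2 * C) ^ 2 = 2 * C := Real.sq_sqrt (by positivity)
    have h5 : Y ^ 4 = W := root_pow hW0
    have h6 : W * Real.exp (c * k) = C * x * E := by
      rw [hW, mul_assoc, ← Real.exp_add, neg_add_cancel, Real.exp_zero, mul_one]
    calc ((#(bad S k M u l u' l' η) : ℝ) ^ 2 * Real.exp (c / 2 * k)) ^ 2
        = (#(bad S k M u l u' l' η) : ℝ) ^ 4 * Real.exp (c / 2 * k) ^ 2 := by ring
      _ ≤ ((m + 1) * #S * Y) ^ 4 * Real.exp (c * k) := by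
          rw [h3]
          exact mul_le_mul_of_nonneg_right h2 (Real.exp_pos _).le
      _ = (m + 1) ^ 4 * (#S : ℝ) ^ 4 * (Y ^ 4 * Real.exp (c * k)) := by ring
      _ = (m + 1) ^ 4 * (#S : ℝ) ^ 4 * (C * x * E) := by rw [h5, h6]
      _ ≤ (m + 1) ^ 4 * (2 * x * E) * (C * x * E) := by
          refine mul_le_mul_of_nonneg_right ?_ (by positivity)
          exact mul_le_mul_of_nonneg_left htriv (by positivity)
      _ = (m + 1) ^ 4 * (2 * C) * x ^ 2 * E ^ 2 := by ring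
      _ = (m + 1) ^ 4 * √(2 * C) ^ 2 * x ^ 2 * E ^ 2 := by rw [h4]
      _ = ((m + 1) ^ 2 * √(2 * C) * x * E) ^ 2 := by ring
  exact le_of_sq_le_sq h1 (by positivity)

end Pool.Agent.Helper81.NM
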