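import Pool.Agent.Helper81.NM.NLP
import Pool.Agent.Helper16.NM.Forms
import Pool.Agent.Helper5.NM.Inf

/-!
The inequality for pairs in the literal forms.
-/

set_option autoImplicit false

open Finset Real

namespace Pool.Agent.Helper81.NM

open Pool.Agent.Helper25.RC (repF below below_subset_range mem_below repF_below_le)

theorem hits2_congr (k : ℕ) (y u l z u' l' t t' : ℕ → ℝ) (h : ∀ i < k, t i = l i)
    (h' : ∀ i < k, t' i = l' i) : hits2 k y u t z u' t' = hits2 k y u l z u' l' := by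
  unfold hits2
  congr 1
  refine Finset.filter_congr fun i hi => ?_
  rw [mem_range] at hi
  rw [h i hi, h' i hi]

theorem pairIneq : Pool.Agent.Helper16.NM.PairIneq := by
  intro lam η hlam hη
  obtain ⟨c, hc, C, hC, h⟩ := nlp hlam hη
  refine ⟨c, hc, C, hC, fun A x k M u l u' l' hM hMl hl => ?_⟩
  classical
  set S := below A x with hS
  set t : ℕ → ℝ := fun i => if i < k then l i else 0 with ht
  set t' : ℕ → ℝ := fun i => if i < k then l' i else 0 with ht'
  have htk : ∀ i < k, t i = l i := fun i hi => by simp [ht, hi]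
  have htk' : ∀ i < k, t' i = l' i := fun i hi => by simp [ht', hi]
  have h1 := h x k M u t u' t' S (below_subset_range A x) hM hMl (by
    intro i
    simp only [ht]
    split_ifs with hi
    · exact ⟨(hl i hi).1, (hl i hi).2.1⟩
    · exact ⟨le_rfl, zero_le_one⟩) (by
    intro i
    simp only [ht']
    split_ifs with hi
    · exact ⟨(hl i hi).2.2.1, (hl i hi).2.2.2⟩
    · exact ⟨le_rfl, zero_le_one⟩)
  have hsum : ∑ i ∈ range k, t i * t' i = ∑ i ∈ range k, l i * l' i := by
    refine Finset.sum_congr rfl fun i hi => ?_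
    rw [mem_range] at hi
    rw [htk i hi, htk' i hi]
  have h2 : (Pool.Agent.Helper16.NM.Bad A x k M u l u' l' η).ncard
      ≤ #(bad S k M u t u' t' η) := by
    rw [← Set.ncard_coe_finset]
    refine Set.ncard_le_ncard ?_ (Finset.finite_toSet _)
    rintro ⟨a, b⟩ ⟨ha, hb, hax, hbx, hD⟩
    simp only at ha hb hax hbx hD
    rw [Finset.mem_coe]
    unfold bad
    rw [mem_filter, mem_product]
    refine ⟨⟨mem_below.2 ⟨hax, ha⟩, mem_below.2 ⟨hbx, hb⟩⟩, ?_⟩
    rw [hsum, hits2_congr k _ u l _ u' l' t t' htk htk']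
    have e1 : (Set.ncard {i | i < k ∧ Int.fract (((a + b : ℕ) : ℝ) / M i - u i) < l i ∧
        Int.fract ((a : ℝ) / M i - u' i) < l' i})
        = hits2 k (fun i => ((a : ℝ) + b) / M i) u l (fun i => (a : ℝ) / M i) u' l' := by
      unfold hits2
      rw [← Set.ncard_coe_finset]
      congr 1
      ext i
      simp
    rw [e1] at hD
    exact hD
  have h2' : ((Pool.Agent.Helper16.NM.Bad A x k M u l u' l' η).ncard : ℝ)
      ≤ #(bad S k M u t u' t' η) := by exact_mod_cast h2
  have h3 : ∑ n ∈ range (2 * x), (repF S n : ℝ) ^ 2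
      ≤ ∑ n ∈ range (2 * x), (Pool.Agent.Helper16.NM.rep A n : ℝ) ^ 2 := by
    refine Finset.sum_le_sum fun n _ => ?_
    have h4 : repF S n ≤ Pool.Agent.Helper16.NM.rep A n :=
      Pool.Agent.Helper16.NM.r_le_rep (B := S) (A := A) (fun a ha => (mem_below.1 ha).2) n
    have h5 : (repF S n : ℝ) ≤ Pool.Agent.Helper16.NM.rep A n := by exact_mod_cast h4
    exact pow_le_pow_left₀ (Nat.cast_nonneg _) h5 2
  calc ((Pool.Agent.Helper16.NM.Bad A x k M u l u' l' η).ncard : ℝ) ^ 2 * Real.exp (c * k)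
      ≤ (#(bad S k M u t u' t' η) : ℝ) ^ 2 * Real.exp (c * k) :=
        mul_le_mul_of_nonneg_right (pow_le_pow_left₀ (Nat.cast_nonneg _) h2' 2)
          (Real.exp_pos _).le
    _ ≤ C * x * ∑ n ∈ range (2 * x), (repF S n : ℝ) ^ 2 := h1
    _ ≤ C * x * ∑ n ∈ range (2 * x), (Pool.Agent.Helper16.NM.rep A n : ℝ) ^ 2 :=
        mul_le_mul_of_nonneg_left h3 (by positivity)

/-- helper5's form -/
theorem nlp5 : Pool.Agent.Helper5.NM.NLP := by
  intro lam η hlam hη
  obtain ⟨c, hc, C, hC, h⟩ := nlp hlam hη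
  refine ⟨c, hc, C, hC, fun x k M u l u' l' hM hMl hl A G hG => ?_⟩
  classical
  have h1 := h x k M u l u' l' (below A x) (below_subset_range A x) hM hMl
    (fun i => ⟨(hl i).1, (hl i).2.1⟩) (fun i => (hl i).2.2)
  have h2 : #G ≤ #(bad (below A x) k M u l u' l' η) := by
    refine card_le_card fun p hp => ?_
    obtain ⟨h3, h4, h5, h6, h7⟩ := hG p hp
    unfold bad
    rw [mem_filter, mem_product]
    refine ⟨⟨mem_below.2 ⟨h5, h3⟩, mem_below.2 ⟨h6, h4⟩⟩, ?_⟩
    have e1 : Pool.Agent.Helper5.NM.hits2 k (fun i => ((p.1 + p.2 : ℕ) : ℝ) / M i)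
        (fun i => (p.1 : ℝ) / M i) u l u' l'
        = hits2 k (fun i => ((p.1 : ℝ) + p.2) / M i) u l (fun i => (p.1 : ℝ) / M i) u' l' := by
      unfold Pool.Agent.Helper5.NM.hits2 hits2
      congr 1
      refine Finset.filter_congr fun i _ => ?_
      push_cast
      rfl
    rw [e1] at h7
    exact h7
  have h2' : (#G : ℝ) ≤ #(bad (below A x) k M u l u' l' η) := by exact_mod_cast h2
  have h3 : ∑ n ∈ range (2 * x), (repF (below A x) n : ℝ) ^ 2
      ≤ ∑ n ∈ range (2 * x), (Pool.Agent.Helper25.RC.rep A n : ℝ) ^ 2 := by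
    refine Finset.sum_le_sum fun n _ => ?_
    have h5 : (repF (below A x) n : ℝ) ≤ Pool.Agent.Helper25.RC.rep A n := by
      exact_mod_cast repF_below_le A x n
    exact pow_le_pow_left₀ (Nat.cast_nonneg _) h5 2
  calc (#G : ℝ) ^ 2 * Real.exp (c * k)
      ≤ (#(bad (below A x) k M u l u' l' η) : ℝ) ^ 2 * Real.exp (c * k) :=
        mul_le_mul_of_nonneg_right (pow_le_pow_left₀ (Nat.cast_nonneg _) h2' 2)
          (Real.exp_pos _).le
    _ ≤ C * x * ∑ n ∈ range (2 * x), (repF (below A x) n : ℝ) ^ 2 := h1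
    _ ≤ C * x * ∑ n ∈ range (2 * x), (Pool.Agent.Helper25.RC.rep A n : ℝ) ^ 2 :=
        mul_le_mul_of_nonneg_left h3 (by positivity)

end Pool.Agent.Helper81.NM
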